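import Mathlib

/-! Transition-minimal NFAs may need arbitrarily many times more states than state-minimal ones. -/

namespace Pool.Agent.Results.MP_48fb2a_lc.Unbounded

/-- an NFA with state set `Q`: start state, accepting states, transitions -/
structure Aut (A Q : Type) where
  q0 : Q
  F : Finset Q
  δ : Finset (Q × A × Q)

/-- the word is accepted from the given state -/
def Aut.run {A Q : Type} (M : Aut A Q) : Q → List A → Prop
  | q, [] => q ∈ M.F
  | q, c :: w => ∃ q', (q, c, q') ∈ M.δ ∧ M.run q' w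

/-- the recognized language -/
def Aut.lang {A Q : Type} (M : Aut A Q) : Set (List A) := {w | M.run M.q0 w}

/-- recognized by some NFA -/
def Regular {A : Type} (L : Set (List A)) : Prop := ∃ s, ∃ M : Aut A (Fin s), M.lang = L

/-- least number of states -/
noncomputable def nsc {A : Type} (L : Set (List A)) : ℕ :=
  sInf {s | ∃ M : Aut A (Fin s), M.lang = L}

/-- least number of transitions -/
noncomputable def tc {A : Type} (L : Set (List A)) : ℕ :=
  sInf {t | ∃ s, ∃ M : Aut A (Fin s), M.lang = L ∧ M.δ.card = t}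

/-- least number of states of a transition-minimal NFA -/
noncomputable def T {A : Type} (L : Set (List A)) : ℕ :=
  sInf {s | ∃ M : Aut A (Fin s), M.lang = L ∧ M.δ.card = tc L}

open Finset Classical

abbrev Lg : Type := Set (List Bool)

theorem nsc_le {L : Lg} {s : ℕ} (M : Aut Bool (Fin s)) (h : M.lang = L) : nsc L ≤ s :=
  Nat.sInf_le (Exists.intro M h)

theorem tc_le {L : Lg} {s : ℕ} (M : Aut Bool (Fin s)) (h : M.lang = L) : tc L ≤ M.δ.card :=
  Nat.sInf_le (Exists.intro s (Exists.intro M ⟨h, rfl⟩))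

theorem build (Q : Finset Lg) (δ : Finset (Lg × Bool × Lg)) (L : Lg) (hL : L ∈ Q)
    (hs : ∀ x ∈ δ, ∀ w ∈ x.2.2, x.2.1 :: w ∈ x.1)
    (hc : ∀ p ∈ Q, ∀ c w, c :: w ∈ p → ∃ q ∈ Q, (p, c, q) ∈ δ ∧ w ∈ q) :
    ∃ M : Aut Bool (Fin Q.card), M.lang = L ∧ M.δ.card ≤ δ.card := by
  let e := Q.equivFin
  let l : Fin Q.card → Lg := fun i => (e.symm i).1
  have li : Function.Injective l := Subtype.val_injective.comp e.symm.injective
  let M : Aut Bool (Fin Q.card) := ⟨e ⟨L, hL⟩, univ.filter fun i => [] ∈ l i,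
    univ.filter fun x => (l x.1, x.2.1, l x.2.2) ∈ δ⟩
  have key : ∀ w i, M.run i w ↔ w ∈ l i := by
    intro w
    induction w with
    | nil => intro i; simp [Aut.run, M]
    | cons c w ih =>
      intro i
      simp only [Aut.run, ih]
      constructor
      · rintro ⟨j, h1, h2⟩
        exact hs _ (mem_filter.1 h1).2 w h2
      · intro h
        obtain ⟨q, hq, h1, h2⟩ := hc _ (e.symm i).2 c w h
        exact ⟨e ⟨q, hq⟩, by simpa [M, l] using h1, by simpa [l] using h2⟩
  refine ⟨M, Set.ext fun w => (key w _).trans (by simp [M, l]), ?_⟩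
  refine card_le_card_of_injOn (fun x => (l x.1, x.2.1, l x.2.2))
    (fun x hx => (mem_filter.1 (mem_coe.1 hx)).2) ?_
  rintro ⟨a, b, c⟩ _ ⟨a', b', c'⟩ _ h
  simp only [Prod.mk.injEq] at h
  rw [li h.1, h.2.1, li h.2.2]

def wl : ℕ → Finset (List Bool)
  | 0 => {[]}
  | k + 1 => insert [] ((wl k).image (List.cons true) ∪ (wl k).image (List.cons false))

theorem mem_wl (k : ℕ) : ∀ w, w ∈ wl k ↔ w.length ≤ k := by
  induction k with
  | zero => intro w; simp [wl]
  | succ k ih =>
    intro w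
    cases w with
    | nil => simp [wl]
    | cons c w => cases c <;> simp [wl, ih]

theorem card_wl (k : ℕ) : (wl k).card + 1 ≤ 2 * 2 ^ k := by
  induction k with
  | zero => simp [wl]
  | succ k ih =>
    have h1 := card_insert_le ([] : List Bool)
      ((wl k).image (List.cons true) ∪ (wl k).image (List.cons false))
    have h2 := card_union_le ((wl k).image (List.cons true)) ((wl k).image (List.cons false))
    have h3 := card_image_le (s := wl k) (f := List.cons true)
    have h4 := card_image_le (s := wl k) (f := List.cons false)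
    simp only [wl, pow_succ]
    omega

def quo (L : Lg) (u : List Bool) : Lg := {w | u ++ w ∈ L}

theorem small (m : ℕ) (L : Lg) (h : ∀ w ∈ L, w.length = 2 * m) :
    Regular L ∧ nsc L ≤ 4 * 2 ^ m := by
  let Q : Finset Lg := (wl m).image (quo L) ∪ (wl m).image fun v => {v}
  obtain ⟨M, hM, _⟩ := build Q
    ((Q ×ˢ univ ×ˢ Q).filter fun x => ∀ w ∈ x.2.2, x.2.1 :: w ∈ x.1) L
    (mem_union_left _ (mem_image.2 ⟨[], (mem_wl _ _).2 (by simp), rfl⟩))
    (fun x hx => (mem_filter.1 hx).2) (by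
      intro p hp c w hw
      have : ∃ q ∈ Q, (∀ w ∈ q, c :: w ∈ p) ∧ w ∈ q := by
        rcases mem_union.1 hp with hp | hp <;> obtain ⟨u, hu, rfl⟩ := mem_image.1 hp <;>
          rw [mem_wl] at hu
        · by_cases e : u.length < m
          · exact ⟨quo L (u ++ [c]), mem_union_left _ (mem_image.2
              ⟨_, (mem_wl _ _).2 (by simp; omega), rfl⟩),
              fun w hw => by simpa [quo] using hw, by simpa [quo] using hw⟩
          · have := h _ hw
            simp only [List.length_append, List.length_cons] at this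
            exact ⟨{w}, mem_union_right _ (mem_image.2 ⟨_, (mem_wl _ _).2 (by omega), rfl⟩),
              by rintro _ rfl; exact hw, rfl⟩
        · obtain rfl : c :: w = u := hw
          simp only [List.length_cons] at hu
          exact ⟨{w}, mem_union_right _ (mem_image.2 ⟨_, (mem_wl _ _).2 (by omega), rfl⟩),
            by rintro _ rfl; rfl, rfl⟩
      obtain ⟨q, h1, h2, h3⟩ := this
      exact ⟨q, h1, mem_filter.2 ⟨by simp [hp, h1], h2⟩, h3⟩)
  refine ⟨⟨_, M, hM⟩, (nsc_le M hM).trans ?_⟩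
  have h2 := card_union_le ((wl m).image (quo L)) ((wl m).image fun v => ({v} : Lg))
  have h3 := card_image_le (s := wl m) (f := quo L)
  have h4 := card_image_le (s := wl m) (f := fun v => ({v} : Lg))
  have := card_wl m
  simp only [Q]
  omega

def pre (w : List Bool) (S : Finset (List Bool)) : Lg := {x | ∃ z ∈ S, x = w ++ z}

theorem few (k j : ℕ) (L : Lg) (h : ∀ w ∈ L, w.length = 2 * (k + j)) :
    tc L ≤ 16 * 2 ^ (k + j) * 2 ^ k + (4 + 6 * 2 ^ (wl j).card) * 2 ^ (k + j) := by
  let P := (wl j).powerset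
  let Q : Finset Lg := (wl (k + j + 1)).image (quo L) ∪
    (wl (k + 1) ×ˢ P).image fun x => pre x.1 x.2
  let d1 : Finset (Lg × Bool × Lg) := (wl (k + j) ×ˢ (univ : Finset Bool)).image
    fun x => (quo L x.1, x.2, quo L (x.1 ++ [x.2]))
  let d2 : Finset (Lg × Bool × Lg) := (wl (k + j + 1) ×ˢ (univ : Finset Bool) ×ˢ wl k).image
    fun x => (quo L x.1, x.2.1,
      pre x.2.2 ((wl j).filter fun z => x.1 ++ x.2.1 :: (x.2.2 ++ z) ∈ L))
  let d3 : Finset (Lg × Bool × Lg) := (wl k ×ˢ (univ : Finset Bool) ×ˢ P).image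
    fun x => (pre (x.2.1 :: x.1) x.2.2, x.2.1, pre x.1 x.2.2)
  let d4 : Finset (Lg × Bool × Lg) := ((univ : Finset Bool) ×ˢ P).image
    fun x => (pre [] x.2, x.1, pre [] ((wl j).filter fun z => x.1 :: z ∈ x.2))
  have mq : ∀ u : List Bool, u.length ≤ k + j + 1 → quo L u ∈ Q := fun u hu =>
    mem_union_left _ (mem_image.2 ⟨u, (mem_wl _ _).2 hu, rfl⟩)
  have mp : ∀ (w : List Bool) S, w.length ≤ k + 1 → S ⊆ wl j → pre w S ∈ Q := fun w S hw hS =>
    mem_union_right _ (mem_image.2 ⟨(w, S), mem_product.2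
      ⟨(mem_wl _ _).2 hw, mem_powerset.2 hS⟩, rfl⟩)
  obtain ⟨M, hM, hc⟩ := build Q (d1 ∪ d2 ∪ d3 ∪ d4) L (mq [] (by simp)) (by
      intro x hx
      simp only [mem_union] at hx
      rcases hx with ((hx | hx) | hx) | hx <;> obtain ⟨y, _, rfl⟩ := mem_image.1 hx
      · intro w hw; simpa [quo] using hw
      · rintro _ ⟨z, hz, rfl⟩; exact (mem_filter.1 hz).2
      · rintro _ ⟨z, hz, rfl⟩; exact ⟨z, hz, rfl⟩
      · rintro _ ⟨z, hz, rfl⟩; exact ⟨_, (mem_filter.1 hz).2, rfl⟩) (by
      intro p hp c w hw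
      simp only [mem_union]
      rcases mem_union.1 hp with hp | hp <;> obtain ⟨u, hu, rfl⟩ := mem_image.1 hp
      · rw [mem_wl] at hu
        by_cases e : u.length ≤ k + j
        · exact ⟨quo L (u ++ [c]), mq _ (by simp; omega),
            Or.inl (Or.inl (Or.inl (mem_image.2 ⟨(u, c), by simp [mem_wl, e], rfl⟩))),
            by simpa [quo] using hw⟩
        · have := h _ hw
          simp only [List.length_append, List.length_cons] at this
          refine ⟨_, mp (w.take k) _ (by simp) (filter_subset _ _),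
            Or.inl (Or.inl (Or.inr (mem_image.2 ⟨(u, c, w.take k),
              by simp [mem_wl, hu], rfl⟩))), w.drop k, mem_filter.2 ⟨?_, ?_⟩, by simp⟩
          · rw [mem_wl]; simp; omega
          · simpa [quo] using hw
      · obtain ⟨v, S⟩ := u
        obtain ⟨h1, h2⟩ := mem_product.1 hu
        rw [mem_wl] at h1
        obtain ⟨z, hz, e⟩ := hw
        cases v with
        | nil =>
          obtain rfl : c :: w = z := e
          have := (mem_wl _ _).1 (mem_powerset.1 h2 hz)
          simp only [List.length_cons] at this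
          exact ⟨_, mp [] _ (by simp) (filter_subset _ _),
            Or.inr (mem_image.2 ⟨(c, S), by simp [h2], rfl⟩), w,
            mem_filter.2 ⟨(mem_wl _ _).2 (by omega), hz⟩, rfl⟩
        | cons c' v =>
          obtain ⟨rfl, rfl⟩ := List.cons.inj e
          simp only [List.length_cons] at h1
          exact ⟨_, mp v S (by omega) (mem_powerset.1 h2),
            Or.inl (Or.inr (mem_image.2 ⟨(v, c, S), by
              simp only [mem_product, mem_wl, mem_univ, true_and]; exact ⟨by omega, h2⟩, rfl⟩)),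
            z, hz, rfl⟩)
  refine (tc_le M hM).trans (hc.trans ?_)
  have c1 : d1.card ≤ (wl (k + j)).card * 2 := card_image_le.trans (by simp)
  have c2 : d2.card ≤ (wl (k + j + 1)).card * (2 * (wl k).card) := card_image_le.trans (by simp)
  have c3 : d3.card ≤ (wl k).card * (2 * 2 ^ (wl j).card) := card_image_le.trans (by simp [P])
  have c4 : d4.card ≤ 2 * 2 ^ (wl j).card := card_image_le.trans (by simp [P])
  have u1 := card_union_le (d1 ∪ d2 ∪ d3) d4
  have u2 := card_union_le (d1 ∪ d2) d3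
  have u3 := card_union_le d1 d2
  have w1 := card_wl (k + j)
  have w2 := card_wl (k + j + 1)
  have w3 := card_wl k
  have p1 : 2 ^ k ≤ 2 ^ (k + j) := Nat.pow_le_pow_right (by omega) (by omega)
  have p2 : 1 ≤ 2 ^ (k + j) := Nat.one_le_two_pow
  rw [pow_succ] at w2
  generalize 2 ^ (wl j).card = K at *
  have q2 : (wl (k + j + 1)).card * (2 * (wl k).card) ≤ (4 * 2 ^ (k + j)) * (2 * (2 * 2 ^ k)) :=
    Nat.mul_le_mul (by omega) (by omega)
  have q3 : (wl k).card * (2 * K) ≤ (2 * 2 ^ (k + j)) * (2 * K) :=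
    Nat.mul_le_mul (by omega) le_rfl
  have q4 : 2 * K * 1 ≤ 2 * K * 2 ^ (k + j) := Nat.mul_le_mul le_rfl p2
  nlinarith

theorem pad {k s : ℕ} (h : k ≤ s) (M : Aut Bool (Fin k)) :
    ∃ N : Aut Bool (Fin s), N.lang = M.lang ∧ N.δ.card ≤ M.δ.card := by
  let e := Fin.castLE h
  have ei : Function.Injective e := Fin.castLE_injective h
  let N : Aut Bool (Fin s) := ⟨e M.q0, M.F.image e, M.δ.image fun x => (e x.1, x.2.1, e x.2.2)⟩
  have key : ∀ w q, N.run (e q) w ↔ M.run q w := by
    intro w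
    induction w with
    | nil => intro q; simp [Aut.run, N, ei.eq_iff]
    | cons c w ih =>
      intro q
      simp only [Aut.run]
      constructor
      · rintro ⟨_, h1, h2⟩
        obtain ⟨⟨a, b, d⟩, hx, he⟩ := mem_image.1 h1
        simp only [Prod.mk.injEq] at he
        obtain ⟨e1, rfl, rfl⟩ := he
        exact ⟨d, ei e1 ▸ hx, (ih d).1 h2⟩
      · rintro ⟨d, h1, h2⟩
        exact ⟨e d, mem_image.2 ⟨_, h1, rfl⟩, (ih d).2 h2⟩
  exact ⟨N, Set.ext fun w => key w _, card_image_le⟩

theorem count (X : Type) [Fintype X] (t : ℕ) (y : ℝ) (hy : 1 ≤ y) :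
    ((univ.filter fun d : Finset X => d.card ≤ t).card : ℝ) ≤
      Real.exp (t * y + Fintype.card X / y) := by
  have y0 : 0 < y := by linarith
  have h1 : ∑ d ∈ (univ : Finset X).powerset, (1 / y) ^ d.card = (1 + 1 / y) ^ Fintype.card X := by
    have := Finset.prod_one_add (s := (univ : Finset X)) (f := fun _ => 1 / y)
    simp only [prod_const, card_univ] at this
    exact this.symm
  have h2 : ((univ.filter fun d : Finset X => d.card ≤ t).card : ℝ) * (1 / y) ^ t ≤
      ∑ d ∈ (univ : Finset X).powerset, (1 / y) ^ d.card := by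
    rw [← nsmul_eq_mul]
    refine (card_nsmul_le_sum _ (fun d : Finset X => (1 / y) ^ d.card) _ fun d hd => ?_).trans
      (sum_le_sum_of_subset_of_nonneg (by simp) fun _ _ _ => by positivity)
    exact pow_le_pow_of_le_one (by positivity) ((div_le_one y0).2 hy) (mem_filter.1 hd).2
  have h3 : (1 + 1 / y) ^ Fintype.card X ≤ Real.exp (Fintype.card X / y) := by
    rw [div_eq_mul_one_div (Fintype.card X : ℝ), Real.exp_nat_mul]
    exact pow_le_pow_left₀ (by positivity) (by linarith [Real.add_one_le_exp (1 / y)]) _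
  have h4 : y ^ t ≤ Real.exp (t * y) := by
    rw [Real.exp_nat_mul]
    exact pow_le_pow_left₀ y0.le (by linarith [Real.add_one_le_exp y]) _
  rw [h1, one_div, inv_pow, ← div_eq_mul_inv, div_le_iff₀ (by positivity), ← one_div] at h2
  rw [Real.exp_add, mul_comm (Real.exp _)]
  exact h2.trans (mul_le_mul h3 h4 (by positivity) (by positivity))

theorem total (n s t : ℕ) (y : ℝ) (hy : 1 ≤ y)
    (h : ∀ P : Finset (Fin n → Bool), ∃ M : Aut Bool (Fin s),
      M.lang = List.ofFn '' (P : Set (Fin n → Bool)) ∧ M.δ.card ≤ t) :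
    (2 : ℝ) ^ n / 2 ≤ 2 * s + (t * y + s * (2 * s) / y) := by
  choose M h1 h2 using h
  let D := univ.filter fun d : Finset (Fin s × Bool × Fin s) => d.card ≤ t
  have hc : (univ : Finset (Finset (Fin n → Bool))).card ≤
      ((univ : Finset (Fin s)) ×ˢ (univ : Finset (Finset (Fin s))) ×ˢ D).card := by
    refine card_le_card_of_injOn (fun P => ((M P).q0, (M P).F, (M P).δ))
      (fun P _ => by simp [D, h2]) fun P _ P' _ e => ?_
    have : M P = M P' := by
      simp only [Prod.mk.injEq] at e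
      generalize M P = a at e
      generalize M P' = b at e
      cases a; cases b
      simp only [Aut.mk.injEq]
      exact e
    exact coe_injective (List.ofFn_injective.image_injective ((h1 P).symm.trans (this ▸ h1 P')))
  simp only [card_univ, Fintype.card_finset, Fintype.card_fun, Fintype.card_bool,
    Fintype.card_fin, card_product] at hc
  have hc' : ((2 : ℝ) ^ (2 ^ n)) ≤ s * (2 ^ s * D.card) := by exact_mod_cast hc
  have hD := count (Fin s × Bool × Fin s) t y hy
  simp only [Fintype.card_prod, Fintype.card_fin, Fintype.card_bool, Nat.cast_mul,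
    Nat.cast_ofNat] at hD
  have e1 : (s : ℝ) ≤ Real.exp s := by linarith [Real.add_one_le_exp (s : ℝ)]
  have e2 : (2 : ℝ) ^ s ≤ Real.exp s := by
    rw [← mul_one (s : ℝ), Real.exp_nat_mul]
    exact pow_le_pow_left₀ (by norm_num) (by linarith [Real.add_one_le_exp (1 : ℝ)]) _
  have e3 : Real.exp ((2 : ℝ) ^ n / 2) ≤ (2 : ℝ) ^ (2 ^ n) := by
    rw [show (2 : ℝ) ^ n / 2 = ((2 ^ n : ℕ) : ℝ) * (1 / 2) by push_cast; ring, Real.exp_nat_mul]
    refine pow_le_pow_left₀ (by positivity) ?_ _
    rw [← Real.le_log_iff_exp_le (by norm_num)]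
    linarith [Real.log_two_gt_d9]
  rw [← Real.exp_le_exp, two_mul (s : ℝ), Real.exp_add, Real.exp_add, mul_assoc, ← two_mul]
  exact e3.trans (hc'.trans (mul_le_mul e1 (mul_le_mul e2 hD (by positivity) (by positivity))
    (by positivity) (by positivity)))

theorem result : ¬ ∃ C : ℝ, ∀ L : Set (List Bool), Regular L → (T L : ℝ) ≤ C * nsc L := by
  rintro ⟨C0, h0⟩
  obtain ⟨C, hC⟩ := exists_nat_ge C0
  have h : ∀ L : Set (List Bool), Regular L → T L ≤ C * nsc L := fun L hL => by
    exact_mod_cast (h0 L hL).trans (mul_le_mul_of_nonneg_right hC (by positivity))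
  obtain ⟨y, hy⟩ : ∃ y : ℕ, y = 256 * C ^ 2 + 1 := ⟨_, rfl⟩
  obtain ⟨j, hj⟩ : ∃ j : ℕ, j = 128 * y := ⟨_, rfl⟩
  obtain ⟨K, hK⟩ : ∃ K : ℕ, K = 4 + 6 * 2 ^ (wl j).card := ⟨_, rfl⟩
  obtain ⟨k, hk⟩ : ∃ k : ℕ, k = 4 * (8 * C + K * y) := ⟨_, rfl⟩
  have key := total (2 * (k + j)) (C * (4 * 2 ^ (k + j)))
    (16 * 2 ^ (k + j) * 2 ^ k + K * 2 ^ (k + j)) y (by exact_mod_cast (by omega : 1 ≤ y)) (by
      intro P
      set L : Lg := List.ofFn '' (P : Set (Fin (2 * (k + j)) → Bool))
      have hl : ∀ w ∈ L, w.length = 2 * (k + j) := by rintro _ ⟨f, _, rfl⟩; simp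
      obtain ⟨hr, hn⟩ := small _ L hl
      have ht := few k j L hl
      rw [← hK] at ht
      obtain ⟨s, M, hM⟩ := hr
      obtain ⟨s', M', h1⟩ := Nat.sInf_mem (s := {t | ∃ s, ∃ M : Aut Bool (Fin s),
        M.lang = L ∧ M.δ.card = t}) ⟨_, s, M, hM, rfl⟩
      obtain ⟨N, h2, h3⟩ := Nat.sInf_mem (s := {s | ∃ M : Aut Bool (Fin s),
        M.lang = L ∧ M.δ.card = tc L}) ⟨s', M', h1⟩
      obtain ⟨N', h4, h5⟩ := pad ((h L ⟨s, M, hM⟩).trans (Nat.mul_le_mul_left C hn)) N
      exact ⟨N', h4.trans h2, h5.trans (h3 ▸ ht)⟩)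
  have a1 : (j : ℝ) ≤ 2 ^ j := by exact_mod_cast Nat.lt_two_pow_self.le
  have a2 : (k : ℝ) < 2 ^ (k + j) := by
    exact_mod_cast (by omega : k ≤ k + j).trans_lt Nat.lt_two_pow_self
  have y0 : (0 : ℝ) < y := by exact_mod_cast (by omega : 0 < y)
  have a3 : (256 : ℝ) * C ^ 2 ≤ y := by rw [hy]; push_cast; linarith
  have a4 : (j : ℝ) = 128 * y := by rw [hj]; push_cast; ring
  have a5 : (k : ℝ) = 4 * (8 * C + K * y) := by rw [hk]; push_cast; ring
  push_cast at key
  rw [mul_comm 2 (k + j), pow_mul] at key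
  have b1 : (2 : ℝ) ^ k * (128 * y) ≤ 2 ^ (k + j) := by
    rw [pow_add, ← a4]; exact mul_le_mul_of_nonneg_left a1 (by positivity)
  have n0 : (0 : ℝ) < 2 ^ (k + j) := by positivity
  generalize (2 : ℝ) ^ (k + j) = n at *
  generalize (2 : ℝ) ^ k = z at *
  have b2 : C * (4 * n) * (2 * (C * (4 * n))) / y ≤ n ^ 2 / 8 := by
    rw [div_le_iff₀ y0]; nlinarith [mul_le_mul_of_nonneg_left a3 (sq_nonneg n)]
  nlinarith [mul_le_mul_of_nonneg_left b1 n0.le, mul_lt_mul_of_pos_left a2 n0]

end Pool.Agent.Results.MP_48fb2a_lc.Unbounded
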